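import Pool.Agent.H4.RZ.Sg

/-!
# Rank zero over `F(t)`: module PA, nontrivial unit class times singular class
-/

set_option autoImplicit false

namespace Pool.RZ

open Polynomial Matrix Pool.AVR Pool.AVS

namespace PA

open Sg

variable {F : Type} [Field F]

lemma aniso {a b d x y : F} (h : ¬ IsSquare (b ^ 2 - a * d))
    (h0 : a * x ^ 2 + 2 * b * x * y + d * y ^ 2 = 0) : x = 0 ∧ y = 0 := by
  by_cases hy : y = 0
  · rw [hy] at h0
    have h1 : a * x ^ 2 = 0 := by linear_combination h0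
    rcases mul_eq_zero.mp h1 with h2 | h2
    · exfalso
      apply h
      rw [h2]
      exact ⟨b, by ring⟩
    · exact ⟨pow_eq_zero_iff (two_ne_zero) |>.mp h2, hy⟩
  · exfalso
    apply h
    refine ⟨(a * x + b * y) / y, ?_⟩
    field_simp
    linear_combination (-a) * h0

lemma sq_desc {ν : F[X]} {y : RatFunc F} (h : rf ν = y ^ 2) : ∃ w : F[X], ν = w ^ 2 := by
  have h1 : IsIntegral F[X] (y ^ 2) := by
    rw [← h]
    exact isIntegral_algebraMap
  obtain ⟨w, hw⟩ := IsIntegrallyClosed.exists_algebraMap_eq_of_isIntegral_pow (K := RatFunc F)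
    two_pos h1
  refine ⟨w, ?_⟩
  apply RatFunc.algebraMap_injective F
  rw [map_pow, hw]
  exact h

/-- The norm of the reduction. -/
lemma norm_red (hNGH : NGHStmt) (f : F[X] × F[X] × F[X]) (c : F) {p : F[X][X]} {ν : F[X]}
    (h : (g0 f (lf p)).det = -rf ν) :
    Algebra.norm F (AdjoinRoot.mk (cub (evc c f).1 (evc c f).2.1 (evc c f).2.2) (rd c p)) =
      ν.eval c := by
  obtain ⟨M, hM⟩ : ∃ M : Matrix (Fin 3) (Fin 3) F[X], M = Matrix.of fun (i j : Fin 3) =>
    T f (X ^ (i : ℕ) * X ^ (j : ℕ) * p) := ⟨_, rfl⟩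
  have h1 : g0 f (lf p) = (algebraMap F[X] (RatFunc F)).mapMatrix M := by
    ext i j
    rw [RingHom.mapMatrix_apply, Matrix.map_apply, hM]
    change tau _ _ _ (X ^ (i : ℕ) * X ^ (j : ℕ) * lf p) = rf (T f _)
    rw [← tau_lf]
    congr 1
    simp only [lf, Polynomial.map_mul, Polynomial.map_pow, map_X]
  have h2 : M.det = -ν := by
    apply RatFunc.algebraMap_injective F
    rw [map_neg, RingHom.map_det, ← h1]
    exact h
  have h3 := (hNGH F (evc c f).1 (evc c f).2.1 (evc c f).2.2 (rd c p)).2.1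
  have h4 : gr0 (evc c f).1 (evc c f).2.1 (evc c f).2.2 (rd c p) =
      (evalRingHom c).mapMatrix M := by
    ext i j
    rw [RingHom.mapMatrix_apply, Matrix.map_apply, hM]
    change tau _ _ _ (X ^ (i : ℕ) * X ^ (j : ℕ) * rd c p) = (T f _).eval c
    rw [T_eval]
    congr 1
    simp only [rd, Polynomial.map_mul, Polynomial.map_pow, map_X]
  rw [h4, ← RingHom.map_det, h2, map_neg, neg_inj] at h3
  exact h3.symm

end PA

open Sg PA in
theorem pa_thm (hPL : PLStmt) (hQF : QFStmt) (hNUN : NUNStmt) (hNGH : NGHStmt) : PAStmt := by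
  intro F _ _ h2 f c hirr hT h h' hN hMin hS
  obtain ⟨e, β, γ, hq, hT⟩ := hT
  obtain ⟨s, p, e', hs, hU, he', hns⟩ := hMin
  have hee : e' = e := by
    apply root_eq hq
    rw [hT] at he'
    exact he'
  subst hee
  have hev : (rd c p).eval e' = (p.eval (C e')).eval c := by
    have h1 : (evalRingHom c) (C e') = e' := by simp
    conv_lhs => rw [← h1]
    rw [rd, eval_map, eval₂_at_apply]
    rfl
  rw [← hev] at hns
  obtain ⟨g, A, b0, b1, m0, m1, m2, δ, ρ, hg, hδ, hρ, hM, hA, hm⟩ :=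
    lat hPL hQF hirr hq hT hs hU hS
  obtain ⟨_, ν, hν1, hν2, hν3⟩ := hNUN F f p
  have hν0 : ν.eval c ≠ 0 := fun h0 =>
    (hν3 (pc c) (pc_irr c)).mp hU ((dvd_iff c ν).mpr h0)
  have hnr := norm_red hNGH f c hν2
  obtain ⟨r, hr⟩ := hN
  have hsq : rf ν = (r * Algebra.norm (RatFunc F) (AdjoinRoot.mk (cubK f) s)) ^ 2 := by
    rw [← hν1]
    have : AdjoinRoot.mk (cubK f) (lf p) = AdjoinRoot.mk (cubK f) h *
        AdjoinRoot.mk (cubK f) s ^ 2 := by
      rw [← map_pow, ← map_mul, eq_comm, ← sub_eq_zero, ← map_sub, AdjoinRoot.mk_eq_zero]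
      exact hs
    rw [this, map_mul, map_pow, hr]
    ring
  obtain ⟨w, hw⟩ := sq_desc hsq
  have hQ2 := (hQF F e' β γ (rd c p)).2.1
  rw [hT] at hnr
  have hprod : (rd c p).eval e' * Algebra.norm F (AdjoinRoot.mk (X ^ 2 + C β * X + C γ)
      (rd c p)) = w.eval c ^ 2 := by
    rw [← hQ2, ← eval_pow, ← hw]
    exact hnr
  have hw0 : w.eval c ≠ 0 := by
    intro h0
    apply hν0
    rw [hw, eval_pow, h0]
    ring
  have hpe : (rd c p).eval e' ≠ 0 := by
    intro h0
    rw [h0] at hns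
    exact hns (IsSquare.zero)
  have hNq : ¬ IsSquare (Algebra.norm F (AdjoinRoot.mk (X ^ 2 + C β * X + C γ) (rd c p))) := by
    rintro ⟨q, hq'⟩
    rw [hq'] at hprod
    have hq0 : q ≠ 0 := by
      rintro rfl
      rw [mul_zero, mul_zero] at hprod
      exact hw0 (pow_eq_zero_iff (two_ne_zero) |>.mp hprod.symm)
    apply hns
    refine ⟨w.eval c / q, ?_⟩
    field_simp
    linear_combination hprod
  have hmn : ¬ IsSquare (m1.eval c ^ 2 - m0.eval c * m2.eval c) := by
    rw [hm]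
    rintro ⟨q, hq'⟩
    apply hNq
    refine ⟨q / ρ, ?_⟩
    field_simp
    linear_combination hq'
  have hπ := rf_pc_ne c
  refine ⟨g, hg, ?_, ?_, ?_⟩
  · rw [hM]
    exact unit_rf c (hA ▸ mul_ne_zero hδ hpe)
  · intro i j hij
    rw [hM]
    have key : ∀ b : F[X], rf (pc c) * rf b / rf (pc c) ∈ IP (pc c) := by
      intro b
      rw [mul_div_cancel_left₀ _ hπ]
      exact rf_mem c b
    fin_cases i <;> fin_cases j
    · exact absurd ⟨rfl, rfl⟩ hij
    · exact key b0
    · exact key b1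
    · exact key b0
    · exact key m0
    · exact key m1
    · exact key b1
    · exact key m1
    · exact key m2
  · intro x y hx hy hxy
    rw [hM] at hxy
    simp only [Matrix.of_apply, Matrix.cons_val_zero, Matrix.cons_val_one, Matrix.cons_val] at hxy
    obtain ⟨a, b, hb, hab⟩ := frac c hx
    obtain ⟨a', b', hb', hab'⟩ := frac c hy
    have e1 : rf (m0 * (a * b') ^ 2 + 2 * m1 * (a * b') * (a' * b) + m2 * (a' * b) ^ 2) /
        rf (pc c) = (rf (pc c) * rf m0 * x ^ 2 + 2 * (rf (pc c) * rf m1) * (x * y) +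
          rf (pc c) * rf m2 * y ^ 2) / rf (pc c) ^ 2 * rf (b * b') ^ 2 := by
      have f1 : rf (m0 * (a * b') ^ 2 + 2 * m1 * (a * b') * (a' * b) + m2 * (a' * b) ^ 2) =
          rf m0 * (rf a * rf b') ^ 2 + 2 * rf m1 * (rf a * rf b') * (rf a' * rf b) +
            rf m2 * (rf a' * rf b) ^ 2 := by
        simp only [rf, map_add, map_mul, map_pow, map_ofNat]
      have f2 : rf (b * b') = rf b * rf b' := map_mul _ _ _
      rw [f1, f2, ← hab, ← hab']
      field_simp
    have e2 : rf (m0 * (a * b') ^ 2 + 2 * m1 * (a * b') * (a' * b) + m2 * (a' * b) ^ 2) /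
        rf (pc c) ∈ IP (pc c) := by
      rw [e1]
      exact (AVS.GLU.OO (pc_irr c)).mul_mem hxy
        ((AVS.GLU.OO (pc_irr c)).pow_mem (rf_mem c _) 2)
    have e3 := eval_of_div c e2
    simp only [eval_add, eval_mul, eval_pow, eval_ofNat] at e3
    obtain ⟨i1, i2⟩ := aniso hmn e3
    have ha : a.eval c = 0 := (mul_eq_zero.mp i1).resolve_right hb'
    have ha' : a'.eval c = 0 := (mul_eq_zero.mp i2).resolve_right hb
    constructor
    · apply mul_unit c hb
      have : x / rf (pc c) * rf b = rf a / rf (pc c) := by rw [← hab]; ring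
      rw [this]
      exact div_mem c ha
    · apply mul_unit c hb'
      have : y / rf (pc c) * rf b' = rf a' / rf (pc c) := by rw [← hab']; ring
      rw [this]
      exact div_mem c ha'

end Pool.RZ
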