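import Pool.Agent.H4.RZ.Sg

/-!
# Rank zero over `F(t)`: module PB, trivial class times singular class
-/

set_option autoImplicit false

namespace Pool.RZ

open Polynomial Matrix Pool.AVR Pool.AVS

namespace PB

open Sg

variable {F : Type} [Field F]

/-- Constants giving an isotropic vector modulo `t - c`. -/
lemma consts {a b d r : F} (hr : r ≠ 0) (h : b ^ 2 - a * d = r ^ 2) :
    ∃ x0 y0 x1 y1 : F, x1 * y0 - x0 * y1 ≠ 0 ∧ a * x0 ^ 2 + 2 * b * x0 * y0 + d * y0 ^ 2 = 0 ∧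
      a * x0 * x1 + b * (x0 * y1 + x1 * y0) + d * y0 * y1 ≠ 0 := by
  by_cases ha : a = 0
  · refine ⟨1, 0, 0, 1, by simp, by rw [ha]; ring, ?_⟩
    rw [ha] at h ⊢
    have hb : b ≠ 0 := by
      rintro rfl
      apply hr
      have : r ^ 2 = 0 := by linear_combination -h
      exact pow_eq_zero_iff (two_ne_zero) |>.mp this
    intro h'
    apply hb
    linear_combination h'
  · refine ⟨-b + r, a, 1, 0, by simpa using ha, by linear_combination (-a) * h, ?_⟩
    intro h'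
    have : a * r = 0 := by linear_combination h'
    rcases mul_eq_zero.mp this with h0 | h0
    · exact ha h0
    · exact hr h0

lemma entry {K : Type} [Field K] (π A b0 b1 m0 m1 m2 x0 y0 x1 y1 n : K) (hπ : π ≠ 0)
    (hn : m0 * x0 ^ 2 + 2 * m1 * x0 * y0 + m2 * y0 ^ 2 = π * n) :
    (!![1, 0, 0; 0, x1, x0 / π; 0, y1, y0 / π] : Matrix (Fin 3) (Fin 3) K)ᵀ *
      !![A, π * b0, π * b1; π * b0, π * m0, π * m1; π * b1, π * m1, π * m2] *
      !![1, 0, 0; 0, x1, x0 / π; 0, y1, y0 / π] =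
    !![A, π * (b0 * x1 + b1 * y1), b0 * x0 + b1 * y0;
      π * (b0 * x1 + b1 * y1), π * (m0 * x1 ^ 2 + 2 * m1 * x1 * y1 + m2 * y1 ^ 2),
      m0 * x0 * x1 + m1 * (x0 * y1 + x1 * y0) + m2 * y0 * y1;
      b0 * x0 + b1 * y0, m0 * x0 * x1 + m1 * (x0 * y1 + x1 * y0) + m2 * y0 * y1, n] := by
  have hn' : n = (m0 * x0 ^ 2 + 2 * m1 * x0 * y0 + m2 * y0 ^ 2) / π := by
    rw [hn]
    field_simp
  rw [hn']
  ext i j
  fin_cases i <;> fin_cases j <;>
    simp [Matrix.mul_apply, Fin.sum_univ_three] <;> field_simp <;> ring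

/-- The unimodular lattice. -/
lemma fin' (c : F) {G g : Matrix (Fin 3) (Fin 3) (RatFunc F)} {A b0 b1 m0 m1 m2 : F[X]} {r : F}
    (hg : g.det ≠ 0) (hA : A.eval c ≠ 0) (hr : r ≠ 0)
    (hM : gᵀ * G * g = !![rf A, rf (pc c) * rf b0, rf (pc c) * rf b1;
        rf (pc c) * rf b0, rf (pc c) * rf m0, rf (pc c) * rf m1;
        rf (pc c) * rf b1, rf (pc c) * rf m1, rf (pc c) * rf m2])
    (h : m1.eval c ^ 2 - m0.eval c * m2.eval c = r ^ 2) : EL (IP (pc c)) G := by
  obtain ⟨x0, y0, x1, y1, hdet, hiso, hpair⟩ := consts hr h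
  have hπ := rf_pc_ne c
  obtain ⟨n, hn⟩ : pc c ∣ m0 * C x0 ^ 2 + 2 * m1 * C x0 * C y0 + m2 * C y0 ^ 2 := by
    rw [dvd_iff]
    simp only [eval_add, eval_mul, eval_pow, eval_C, eval_ofNat]
    linear_combination hiso
  have hn' : rf m0 * rf (C x0) ^ 2 + 2 * rf m1 * rf (C x0) * rf (C y0) +
      rf m2 * rf (C y0) ^ 2 = rf (pc c) * rf n := by
    have := congrArg (rf (F := F)) hn
    simpa only [rf, map_add, map_mul, map_pow, map_ofNat] using this
  obtain ⟨κ, hκ⟩ : ∃ κ : Matrix (Fin 3) (Fin 3) (RatFunc F), κ = !![1, 0, 0;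
    0, rf (C x1), rf (C x0) / rf (pc c); 0, rf (C y1), rf (C y0) / rf (pc c)] := ⟨_, rfl⟩
  obtain ⟨N, hN⟩ : ∃ N : Matrix (Fin 3) (Fin 3) F[X], N =
    !![A, pc c * (b0 * C x1 + b1 * C y1), b0 * C x0 + b1 * C y0;
      pc c * (b0 * C x1 + b1 * C y1),
      pc c * (m0 * C x1 ^ 2 + 2 * m1 * C x1 * C y1 + m2 * C y1 ^ 2),
      m0 * C x0 * C x1 + m1 * (C x0 * C y1 + C x1 * C y0) + m2 * C y0 * C y1;
      b0 * C x0 + b1 * C y0,
      m0 * C x0 * C x1 + m1 * (C x0 * C y1 + C x1 * C y0) + m2 * C y0 * C y1, n] := ⟨_, rfl⟩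
  have hκdet : κ.det ≠ 0 := by
    rw [hκ, det_fin_three]
    simp only [Matrix.of_apply, Matrix.cons_val_zero, Matrix.cons_val_one, Matrix.cons_val]
    have e : rf (C x1) * rf (C y0) - rf (C x0) * rf (C y1) ≠ 0 := by
      have : rf (C (x1 * y0 - x0 * y1)) ≠ 0 :=
        RatFunc.algebraMap_ne_zero (C_ne_zero.mpr hdet)
      simpa only [rf, C_sub, C_mul, map_sub, map_mul] using this
    intro h0
    apply e
    field_simp at h0
    linear_combination h0
  have hmain : (g * κ)ᵀ * G * (g * κ) = N.map (algebraMap F[X] (RatFunc F)) := by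
    have e : (g * κ)ᵀ * G * (g * κ) = κᵀ * (gᵀ * G * g) * κ := by
      rw [transpose_mul]
      simp only [Matrix.mul_assoc]
    rw [e, hM, hκ, hN, entry _ _ _ _ _ _ _ _ _ _ _ (rf n) hπ hn']
    ext i j
    rw [Matrix.map_apply]
    fin_cases i <;> fin_cases j <;>
      simp only [Matrix.of_apply, Matrix.cons_val_zero, Matrix.cons_val_one, Matrix.cons_val,
        Fin.zero_eta, Fin.mk_one, Fin.reduceFinMk, rf, map_add, map_mul, map_pow, map_ofNat]
  refine ⟨g * κ, ?_, ?_, ?_⟩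
  · rw [det_mul]
    exact mul_ne_zero hg hκdet
  · intro i j
    rw [hmain, Matrix.map_apply]
    exact rf_mem c _
  · have e : (N.map (algebraMap F[X] (RatFunc F))).det = rf N.det := by
      rw [← RingHom.mapMatrix_apply, ← RingHom.map_det]
    rw [hmain, e]
    apply unit_rf
    rw [hN, det_fin_three]
    simp only [Matrix.of_apply, Matrix.cons_val_zero, Matrix.cons_val_one, Matrix.cons_val,
      eval_add, eval_mul, eval_pow, eval_C, eval_sub, eval_X, sub_self, zero_mul, mul_zero,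
      eval_ofNat]
    intro h0
    have h1 : A.eval c * (m0.eval c * x0 * x1 + m1.eval c * (x0 * y1 + x1 * y0) +
        m2.eval c * y0 * y1) ^ 2 = 0 := by linear_combination -h0
    rcases mul_eq_zero.mp h1 with h2 | h2
    · exact hA h2
    · exact hpair (by
        have := pow_eq_zero_iff (two_ne_zero) |>.mp h2
        linear_combination this)

end PB

open Sg PB in
theorem pb_thm (hPL : PLStmt) (hQF : QFStmt) : PBStmt := by
  intro F _ _ h2 f c hirr hT h h' hTR hS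
  obtain ⟨e, β, γ, hq, hT⟩ := hT
  obtain ⟨s, p0, hs⟩ := hTR
  have hU : UnP (pc c) f (1 + C (pc c) * p0) := ⟨1, p0, by
    have : (1 + C (pc c) * p0) * 1 - 1 - C (pc c) * p0 = 0 := by ring
    rw [this]
    exact dvd_zero _⟩
  obtain ⟨g, A, b0, b1, m0, m1, m2, δ, ρ, hg, hδ, hρ, hM, hA, hm⟩ :=
    lat hPL hQF hirr hq hT hs hU hS
  have hrd : rd c (1 + C (pc c) * p0) = 1 := by
    simp
  rw [hrd, map_one, map_one, mul_one] at hm
  rw [hrd, eval_one, mul_one] at hA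
  exact fin' c hg (hA ▸ hδ) hρ hM hm

end Pool.RZ
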