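import Pool.Agent.H77.RZ.Stmts

/-!
# Rank zero over `F(t)`: module RC3, a form with splitting type `(0, 0, 1)` is isotropic
-/

set_option autoImplicit false

namespace Pool.RZ

open Polynomial Matrix Pool.AVR Pool.AVS

namespace RC3

lemma bil_eq {R : Type} [CommRing R] (G : Matrix (Fin 3) (Fin 3) R) (hG : Gᵀ = G)
    (z : Fin 3 → R) :
    bil G z z = G 0 0 * z 0 ^ 2 + G 1 1 * z 1 ^ 2 + G 2 2 * z 2 ^ 2 + 2 * G 0 1 * (z 0 * z 1) +
      2 * G 0 2 * (z 0 * z 2) + 2 * G 1 2 * (z 1 * z 2) := by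
  have h1 : G 1 0 = G 0 1 := congrFun (congrFun hG 0) 1
  have h2 : G 2 0 = G 0 2 := congrFun (congrFun hG 0) 2
  have h3 : G 2 1 = G 1 2 := congrFun (congrFun hG 1) 2
  unfold bil
  simp only [dotProduct, mulVec, Fin.sum_univ_three, h1, h2, h3]
  ring

lemma tern {F : Type} [Field F] [Finite F] (h2 : (2 : F) ≠ 0) (a b c δ : F) (ha : a ≠ 0)
    (hδ : δ ≠ 0) (hd : a * c - b ^ 2 ≠ 0) :
    ∃ x y : F, a * x ^ 2 + 2 * b * x + c + y ^ 2 * δ * (a * c - b ^ 2) = 0 := by
  classical
  have := Fintype.ofFinite F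
  have hc : Fintype.card F % 2 = 1 := by
    apply FiniteField.odd_card_of_char_ne_two
    intro h
    apply h2
    have := ringChar.Nat.cast_ringChar (R := F)
    rw [h] at this
    exact_mod_cast this
  have h1 : (X ^ 2 + C (a * c - b ^ 2) : F[X]).degree = 2 := by
    compute_degree!
  have h3 : (C (a * δ * (a * c - b ^ 2)) * X ^ 2 : F[X]).degree = 2 := by
    compute_degree!
  obtain ⟨T, y, hT⟩ := FiniteField.exists_root_sum_quadratic h1 h3 hc
  simp only [eval_add, eval_pow, eval_X, eval_C, eval_mul] at hT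
  refine ⟨(T - b) / a, y, ?_⟩
  have : a * (a * ((T - b) / a) ^ 2 + 2 * b * ((T - b) / a) + c +
      y ^ 2 * δ * (a * c - b ^ 2)) = 0 := by
    field_simp
    linear_combination hT
  exact (mul_eq_zero.mp this).resolve_left ha

end RC3

open RC3 in
theorem rc3_thm : RC3Stmt := by
  intro F _ _ h2 c G d δ hG hδ hdet hs h01 h12 hdeg
  by_cases hA : G 0 0 = 0
  · refine ⟨![1, 0, 0], fun h => ?_, ?_⟩
    · have := congrFun h 0
      simp at this
    · rw [bil_eq G hG]
      simp [hA]
  · have hd0 : 0 ≤ d 0 := by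
      have := hdeg 0 0 hA
      omega
    have e0 : d 0 = 0 := by omega
    have e1 : d 1 = 0 := by omega
    have hconst : ∀ i j : Fin 3, d i = 0 → d j = 0 → ∃ a : F, G i j = C a := by
      intro i j hi hj
      by_cases h : G i j = 0
      · exact ⟨0, by rw [h, C_0]⟩
      · refine ⟨(G i j).coeff 0, eq_C_of_natDegree_le_zero ?_⟩
        have := hdeg i j h
        omega
    obtain ⟨a, ha⟩ := hconst 0 0 e0 e0
    obtain ⟨b, hb⟩ := hconst 0 1 e0 e1
    obtain ⟨e, he⟩ := hconst 1 1 e1 e1
    have ha0 : a ≠ 0 := by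
      rintro rfl
      exact hA (by rw [ha, C_0])
    by_cases hD : a * e - b ^ 2 = 0
    · refine ⟨![C (-b), C a, 0], fun h => ?_, ?_⟩
      · have := congrFun h 1
        simp [ha0] at this
      · rw [bil_eq G hG, ha, hb, he]
        have hD' : C a * C e - C b ^ 2 = (0 : F[X]) := by
          rw [← C_mul, ← C_pow, ← C_sub, hD, C_0]
        simp only [Matrix.cons_val_zero, Matrix.cons_val_one, Matrix.cons_val, C_neg]
        linear_combination (C a) * hD'
    · obtain ⟨x, y, hxy⟩ := tern h2 a b e δ ha0 hδ hD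
      have hxy' : C a * C x ^ 2 + 2 * C b * C x + C e + C y ^ 2 * C δ * (C a * C e - C b ^ 2) =
          (0 : F[X]) := by
        have := congrArg (C : F → F[X]) hxy
        simpa only [C_add, C_mul, C_pow, C_sub, C_0, map_ofNat] using this
      have h10 : G 1 0 = C b := by rw [← hb]; exact congrFun (congrFun hG 0) 1
      have h20 : G 2 0 = G 0 2 := congrFun (congrFun hG 0) 2
      have h21 : G 2 1 = G 1 2 := congrFun (congrFun hG 1) 2
      rw [det_fin_three, h10, h20, h21, ha, hb, he] at hdet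
      refine ⟨![pc c * C x + C y * (C b * G 1 2 - C e * G 0 2),
        pc c + C y * (C b * G 0 2 - C a * G 1 2), C y * (C a * C e - C b ^ 2)], fun h => ?_, ?_⟩
      · have i1 := congrFun h 1
        have i2 := congrFun h 2
        simp only [Matrix.cons_val_one, Matrix.cons_val, Pi.zero_apply] at i1 i2
        have hD' : C a * C e - C b ^ 2 ≠ (0 : F[X]) := by
          rw [← C_mul, ← C_pow, ← C_sub]
          exact C_ne_zero.mpr hD
        have hy : C y = (0 : F[X]) := (mul_eq_zero.mp i2).resolve_right hD'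
        rw [hy, zero_mul, add_zero] at i1
        exact X_sub_C_ne_zero c i1
      · rw [bil_eq G hG, ha, hb, he]
        simp only [Matrix.cons_val_zero, Matrix.cons_val_one, Matrix.cons_val]
        linear_combination (C y ^ 2 * (C a * C e - C b ^ 2)) * hdet + (pc c) ^ 2 * hxy'

end Pool.RZ
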