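import Pool.Agent.H77.RZ.Stmts
import Pool.Agent.H80.AVS.GLU

/-!
# Rank zero over `F(t)`: module RC4, anisotropy at `t = c`
-/

set_option autoImplicit false

namespace Pool.RZ

open Polynomial Matrix Pool.AVR Pool.AVS

namespace RC4

open Pool.AVS.GLU

variable {F : Type} [Field F]

lemma bil_eq {R : Type} [CommRing R] (G : Matrix (Fin 3) (Fin 3) R) (hG : Gᵀ = G)
    (z : Fin 3 → R) :
    bil G z z = G 0 0 * z 0 ^ 2 + G 1 1 * z 1 ^ 2 + G 2 2 * z 2 ^ 2 + 2 * G 0 1 * (z 0 * z 1) +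
      2 * G 0 2 * (z 0 * z 2) + 2 * G 1 2 * (z 1 * z 2) := by
  have h1 : G 1 0 = G 0 1 := congrFun (congrFun hG 0) 1
  have h2 : G 2 0 = G 0 2 := congrFun (congrFun hG 0) 2
  have h3 : G 2 1 = G 1 2 := congrFun (congrFun hG 1) 2
  unfold bil
  simp only [dotProduct, mulVec, Fin.sum_univ_three, h1, h2, h3]
  ring

lemma inv_not_mem {P : F[X]} (hP : Irreducible P) :
    (algebraMap F[X] (RatFunc F) P)⁻¹ ∉ OO hP := by
  intro h
  have hP0 := ne_zero' hP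
  obtain ⟨x, hx⟩ : ∃ x : RatFunc F, x = (algebraMap F[X] (RatFunc F) P)⁻¹ := ⟨_, rfl⟩
  rw [← hx] at h
  have hd0 : algebraMap F[X] (RatFunc F) x.denom ≠ 0 := by
    simpa using x.denom_ne_zero
  have e : algebraMap F[X] (RatFunc F) (x.num * P) = algebraMap F[X] (RatFunc F) x.denom := by
    have h1 : algebraMap F[X] (RatFunc F) x.num = x * algebraMap F[X] (RatFunc F) x.denom := by
      rw [← div_eq_iff hd0]
      exact RatFunc.num_div_denom x
    rw [map_mul, h1, hx]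
    field_simp
  have e2 := RatFunc.algebraMap_injective F e
  exact h ⟨x.num, by rw [← e2, mul_comm]⟩

lemma zpow_mem {P : F[X]} (hP : Irreducible P) (n : ℤ) :
    (algebraMap F[X] (RatFunc F) P) ^ n ∈ OO hP ↔ 0 ≤ n := by
  have hP0 := ne_zero' hP
  constructor
  · intro h
    by_contra hn
    push Not at hn
    obtain ⟨k, hk⟩ : ∃ k : ℕ, n = -(k : ℤ) - 1 := ⟨(-n - 1).toNat, by omega⟩
    have h1 := (OO hP).mul_mem h ((OO hP).pow_mem (pol_mem hP P) k)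
    have e : (algebraMap F[X] (RatFunc F) P) ^ n * (algebraMap F[X] (RatFunc F) P) ^ k =
        (algebraMap F[X] (RatFunc F) P)⁻¹ := by
      rw [← zpow_natCast, ← zpow_add₀ hP0, hk, ← _root_.zpow_neg_one]
      congr 1
      ring
    rw [e] at h1
    exact inv_not_mem hP h1
  · intro h
    obtain ⟨k, rfl⟩ := Int.eq_ofNat_of_zero_le h
    rw [zpow_natCast]
    exact (OO hP).pow_mem (pol_mem hP P) k

lemma mul_unit_mem {P : F[X]} (hP : Irreducible P) {x u : RatFunc F} (hu0 : u ≠ 0)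
    (hu : u ∈ OO hP) (hu' : u⁻¹ ∈ OO hP) : x * u ∈ OO hP ↔ x ∈ OO hP := by
  constructor
  · intro h
    have := (OO hP).mul_mem h hu'
    rwa [mul_assoc, mul_inv_cancel₀ hu0, mul_one] at this
  · intro h
    exact (OO hP).mul_mem h hu

lemma sq_div {P : F[X]} (hP : Irreducible P) {x : RatFunc F}
    (h : x ^ 2 / algebraMap F[X] (RatFunc F) P ∈ OO hP) :
    x / algebraMap F[X] (RatFunc F) P ∈ OO hP := by
  have hP0 := ne_zero' hP
  by_cases hx : x = 0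
  · rw [hx, zero_div]
    exact (OO hP).zero_mem
  · obtain ⟨n, u, hxu, hu0, hu, hu'⟩ := exists_unit hP x hx
    have e1 : x ^ 2 / algebraMap F[X] (RatFunc F) P =
        (algebraMap F[X] (RatFunc F) P) ^ (2 * n - 1) * u ^ 2 := by
      rw [hxu, zpow_sub₀ hP0, zpow_one, two_mul, zpow_add₀ hP0]
      ring
    have e2 : x / algebraMap F[X] (RatFunc F) P =
        (algebraMap F[X] (RatFunc F) P) ^ (n - 1) * u := by
      rw [hxu, zpow_sub₀ hP0, zpow_one]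
      ring
    rw [e1, mul_unit_mem hP (pow_ne_zero 2 hu0) ((OO hP).pow_mem hu 2)
      (by rw [← inv_pow]; exact (OO hP).pow_mem hu' 2), zpow_mem] at h
    rw [e2, mul_unit_mem hP hu0 hu hu', zpow_mem]
    omega

/-- Primitive multiples. -/
lemma prim {P : F[X]} (hP : Irreducible P) (z : Fin 3 → RatFunc F) (hz : z ≠ 0) :
    ∃ t : RatFunc F, t ≠ 0 ∧ (∀ i, t * z i ∈ OO hP) ∧
      ∃ i, t * z i / algebraMap F[X] (RatFunc F) P ∉ OO hP := by
  classical
  have hP0 := ne_zero' hP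
  have hex : ∀ i : Fin 3, ∃ (n : ℤ) (u : RatFunc F), z i ≠ 0 →
      z i = (algebraMap F[X] (RatFunc F) P) ^ n * u ∧ u ≠ 0 ∧ u ∈ OO hP ∧ u⁻¹ ∈ OO hP := by
    intro i
    by_cases h : z i = 0
    · exact ⟨0, 0, fun h' => absurd h h'⟩
    · obtain ⟨n, u, h1⟩ := exists_unit hP (z i) h
      exact ⟨n, u, fun _ => h1⟩
  choose ν u hνu using hex
  have hne : (Finset.univ.filter fun i => z i ≠ 0).Nonempty := by
    obtain ⟨i, hi⟩ := Function.ne_iff.mp hz
    exact ⟨i, by simpa using hi⟩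
  obtain ⟨i₀, hi₀, hmin⟩ := Finset.exists_min_image _ ν hne
  rw [Finset.mem_filter] at hi₀
  obtain ⟨e0, hu0, hu, hu'⟩ := hνu i₀ hi₀.2
  refine ⟨(algebraMap F[X] (RatFunc F) P) ^ (-ν i₀), zpow_ne_zero _ hP0, fun i => ?_, i₀, ?_⟩
  · by_cases h : z i = 0
    · rw [h, mul_zero]
      exact (OO hP).zero_mem
    · obtain ⟨e1, h1, h2, h3⟩ := hνu i h
      have e : (algebraMap F[X] (RatFunc F) P) ^ (-ν i₀) * z i =
          (algebraMap F[X] (RatFunc F) P) ^ (ν i - ν i₀) * u i := by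
        conv_lhs => rw [e1]
        rw [← mul_assoc, ← zpow_add₀ hP0]
        congr 2
        ring
      rw [e, mul_unit_mem hP h1 h2 h3, zpow_mem]
      have := hmin i (by simpa using h)
      omega
  · have e : (algebraMap F[X] (RatFunc F) P) ^ (-ν i₀) * z i₀ /
        algebraMap F[X] (RatFunc F) P = (algebraMap F[X] (RatFunc F) P) ^ (-1 : ℤ) * u i₀ := by
      conv_lhs => rw [e0]
      rw [← mul_assoc, ← zpow_add₀ hP0, neg_add_cancel, zpow_zero, one_mul, _root_.zpow_neg_one,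
        div_eq_mul_inv, mul_comm]
    rw [e, mul_unit_mem hP hu0 hu hu', zpow_mem]
    omega

end RC4

open RC4 Pool.AVS.GLU in
theorem rc4_thm : RC4Stmt := by
  intro F _ h2 c G hG hOA z hz
  obtain ⟨g, hg, hM00, hM, hani⟩ := hOA
  by_contra hz0
  have hP : Irreducible (pc c) := irreducible_X_sub_C c
  have hP0 := ne_zero' hP
  obtain ⟨M, hMdef⟩ : ∃ M, M = gᵀ * G * g := ⟨_, rfl⟩
  rw [← hMdef] at hM00 hM hani
  have hMs : Mᵀ = M := by
    rw [hMdef, transpose_mul, transpose_mul, transpose_transpose, hG, Matrix.mul_assoc]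
  obtain ⟨z', hz'⟩ : ∃ z', z' = g⁻¹ *ᵥ z := ⟨_, rfl⟩
  have hgz : g *ᵥ z' = z := by
    rw [hz', mulVec_mulVec, mul_nonsing_inv _ (isUnit_iff_ne_zero.mpr hg), one_mulVec]
  have hz'0 : z' ≠ 0 := by
    rintro rfl
    rw [mulVec_zero] at hgz
    exact hz0 hgz.symm
  have hbz : bil M z' z' = 0 := by
    rw [← hz, hMdef]
    unfold bil
    rw [← hgz, ← mulVec_mulVec, ← mulVec_mulVec, dotProduct_mulVec, vecMul_transpose]
  obtain ⟨t, ht0, ht1, i₀, ht2⟩ := prim hP z' hz'0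
  obtain ⟨w, hw⟩ : ∃ w : Fin 3 → RatFunc F, w = fun i => t * z' i := ⟨_, rfl⟩
  have hwi : ∀ i, w i = t * z' i := fun i => by rw [hw]
  have hw1 : ∀ i, w i ∈ OO hP := fun i => by rw [hwi]; exact ht1 i
  have hbw : M 0 0 * w 0 ^ 2 + M 1 1 * w 1 ^ 2 + M 2 2 * w 2 ^ 2 + 2 * M 0 1 * (w 0 * w 1) +
      2 * M 0 2 * (w 0 * w 2) + 2 * M 1 2 * (w 1 * w 2) = 0 := by
    rw [bil_eq M hMs] at hbz
    simp only [hwi]
    linear_combination t ^ 2 * hbz
  have hM' : ∀ i j, ¬ (i = 0 ∧ j = 0) → M i j / algebraMap F[X] (RatFunc F) (pc c) ∈ OO hP := hM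
  have two_mem : (2 : RatFunc F) ∈ OO hP := by
    have := (OO hP).add_mem (OO hP).one_mem (OO hP).one_mem
    rwa [one_add_one_eq_two] at this
  obtain ⟨π, hπ⟩ : ∃ π, π = algebraMap F[X] (RatFunc F) (pc c) := ⟨_, rfl⟩
  rw [← hπ] at hP0 ht2
  have hM11 := hM' 1 1 (by simp)
  have hM22 := hM' 2 2 (by simp)
  have hM01 := hM' 0 1 (by simp)
  have hM02 := hM' 0 2 (by simp)
  have hM12 := hM' 1 2 (by simp)
  rw [← hπ] at hM11 hM22 hM01 hM02 hM12
  -- step A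
  have hA : w 0 / π ∈ OO hP := by
    rw [hπ]
    apply sq_div hP
    rw [← hπ]
    have e : w 0 ^ 2 / π = (M 0 0)⁻¹ * -(M 1 1 / π * w 1 ^ 2 + M 2 2 / π * w 2 ^ 2 +
        2 * (M 0 1 / π) * (w 0 * w 1) + 2 * (M 0 2 / π) * (w 0 * w 2) +
        2 * (M 1 2 / π) * (w 1 * w 2)) := by
      have h0 := hM00.1
      field_simp
      linear_combination hbw
    rw [e]
    exact (OO hP).mul_mem hM00.2.2 ((OO hP).neg_mem ((OO hP).add_mem ((OO hP).add_mem
      ((OO hP).add_mem ((OO hP).add_mem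
        ((OO hP).mul_mem hM11 ((OO hP).pow_mem (hw1 1) 2))
        ((OO hP).mul_mem hM22 ((OO hP).pow_mem (hw1 2) 2)))
        ((OO hP).mul_mem ((OO hP).mul_mem two_mem hM01) ((OO hP).mul_mem (hw1 0) (hw1 1))))
        ((OO hP).mul_mem ((OO hP).mul_mem two_mem hM02) ((OO hP).mul_mem (hw1 0) (hw1 2))))
        ((OO hP).mul_mem ((OO hP).mul_mem two_mem hM12) ((OO hP).mul_mem (hw1 1) (hw1 2)))))
  -- step B
  have hB : (M 1 1 * w 1 ^ 2 + 2 * M 1 2 * (w 1 * w 2) + M 2 2 * w 2 ^ 2) / π ^ 2 ∈ OO hP := by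
    have e : (M 1 1 * w 1 ^ 2 + 2 * M 1 2 * (w 1 * w 2) + M 2 2 * w 2 ^ 2) / π ^ 2 =
        -(M 0 0 * (w 0 / π) ^ 2 + 2 * (M 0 1 / π) * (w 0 / π * w 1) +
          2 * (M 0 2 / π) * (w 0 / π * w 2)) := by
      field_simp
      linear_combination hbw
    rw [e]
    exact (OO hP).neg_mem ((OO hP).add_mem ((OO hP).add_mem
      ((OO hP).mul_mem hM00.2.1 ((OO hP).pow_mem hA 2))
      ((OO hP).mul_mem ((OO hP).mul_mem two_mem hM01) ((OO hP).mul_mem hA (hw1 1))))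
      ((OO hP).mul_mem ((OO hP).mul_mem two_mem hM02) ((OO hP).mul_mem hA (hw1 2))))
  rw [hπ] at hB
  obtain ⟨hC1, hC2⟩ := hani (w 1) (w 2) (hw1 1) (hw1 2) hB
  have hC0 : w 0 / rf (pc c) ∈ IP (pc c) := by
    rw [hπ] at hA
    exact hA
  rw [hπ] at ht2
  apply ht2
  rw [← hwi]
  fin_cases i₀
  · exact hC0
  · exact hC1
  · exact hC2

end Pool.RZ
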