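import Pool.Agent.H77.RZ.Stmts
import Pool.Agent.H80.AVS.GLU
import Pool.Agent.H69.AVS.POL

/-!
# Rank zero over `F(t)`: tools for the modules PA and PB
-/

set_option autoImplicit false

namespace Pool.RZ.Sg

open Polynomial Matrix Pool.AVR Pool.AVS Pool.AVS.GLU

variable {F : Type} [Field F]

/-- The coefficient of `X²` modulo the integral cubic. -/
noncomputable def T (f : F[X] × F[X] × F[X]) (p : F[X][X]) : F[X] := (p %ₘ cubP f).coeff 2

/-- Reduction at `t = c`. -/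
noncomputable abbrev rd (c : F) (p : F[X][X]) : F[X] := p.map (evalRingHom c)

lemma cub_monic {R : Type} [CommRing R] (a b c : R) : (cub a b c).Monic := by
  nontriviality R
  unfold cub
  monicity!

lemma cub_map {R S : Type} [CommRing R] [CommRing S] (φ : R →+* S) (a b c : R) :
    (cub a b c).map φ = cub (φ a) (φ b) (φ c) := by
  unfold cub
  simp

lemma tau_lf (f : F[X] × F[X] × F[X]) (p : F[X][X]) :
    tau (kf f).1 (kf f).2.1 (kf f).2.2 (lf p) = rf (T f p) := by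
  unfold tau T
  have h : cub (kf f).1 (kf f).2.1 (kf f).2.2 = (cubP f).map (algebraMap F[X] (RatFunc F)) := by
    unfold cubP
    rw [cub_map]
    rfl
  have hm : (cubP f).Monic := cub_monic _ _ _
  rw [h, ← map_modByMonic _ hm, coeff_map]

lemma T_eval (f : F[X] × F[X] × F[X]) (p : F[X][X]) (c : F) :
    (T f p).eval c = tau (evc c f).1 (evc c f).2.1 (evc c f).2.2 (rd c p) := by
  unfold tau T
  have h : cub (evc c f).1 (evc c f).2.1 (evc c f).2.2 = (cubP f).map (evalRingHom c) := by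
    unfold cubP
    rw [cub_map]
    rfl
  have hm : (cubP f).Monic := cub_monic _ _ _
  rw [h, ← map_modByMonic _ hm, coeff_map]
  rfl

lemma tau_C_mul {K : Type} [Field K] (a b c r : K) (p : K[X]) :
    tau a b c (C r * p) = r * tau a b c p := by
  unfold tau
  rw [← smul_eq_C_mul, smul_modByMonic, coeff_smul, smul_eq_mul]

lemma pc_irr (c : F) : Irreducible (pc c) := irreducible_X_sub_C c

lemma dvd_iff (c : F) (p : F[X]) : pc c ∣ p ↔ p.eval c = 0 := dvd_iff_isRoot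

lemma rf_mem (c : F) (p : F[X]) : rf p ∈ IP (pc c) := pol_mem (pc_irr c) p

lemma rf_pc_ne (c : F) : rf (pc c) ≠ 0 := ne_zero' (pc_irr c)

lemma div_mem (c : F) {p : F[X]} (h : p.eval c = 0) : rf p / rf (pc c) ∈ IP (pc c) := by
  have := (AVS.POL.part3 (pc c) p (pc_irr c)).2 1
  rw [pow_one, pow_one] at this
  exact this.mpr ((dvd_iff c p).mpr h)

lemma eval_of_div (c : F) {p : F[X]} (h : rf p / rf (pc c) ∈ IP (pc c)) : p.eval c = 0 := by
  have := (AVS.POL.part3 (pc c) p (pc_irr c)).2 1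
  rw [pow_one, pow_one] at this
  exact (dvd_iff c p).mp (this.mp h)

lemma unit_rf (c : F) {p : F[X]} (h : p.eval c ≠ 0) : UI (IP (pc c)) (rf p) := by
  have hd : ¬ pc c ∣ p := fun h' => h ((dvd_iff c p).mp h')
  have hp0 : p ≠ 0 := by
    rintro rfl
    exact h eval_zero
  refine ⟨RatFunc.algebraMap_ne_zero hp0, rf_mem c p, ?_⟩
  have := frac_mem (pc_irr c) 1 p hd
  rw [map_one, one_div] at this
  exact this

lemma frac (c : F) {x : RatFunc F} (hx : x ∈ IP (pc c)) :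
    ∃ a b : F[X], b.eval c ≠ 0 ∧ x * rf b = rf a := by
  refine ⟨x.num, x.denom, fun h => hx ((dvd_iff c _).mpr h), ?_⟩
  have hd0 : rf x.denom ≠ 0 := RatFunc.algebraMap_ne_zero x.denom_ne_zero
  rw [← eq_div_iff hd0]
  exact (RatFunc.num_div_denom x).symm

lemma mul_unit (c : F) {x : RatFunc F} {b : F[X]} (hb : b.eval c ≠ 0)
    (h : x * rf b ∈ IP (pc c)) : x ∈ IP (pc c) := by
  obtain ⟨h0, _, h2⟩ := unit_rf c hb
  have := (OO (pc_irr c)).mul_mem h h2
  rwa [mul_assoc, mul_inv_cancel₀ h0, mul_one] at this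

/-- The unique root. -/
lemma root_eq {e β γ x : F} (hq : ∀ x : F, x ^ 2 + β * x + γ ≠ 0)
    (h : x ^ 3 + (β - e) * x ^ 2 + (γ - e * β) * x + -(e * γ) = 0) : x = e := by
  have h1 : (x - e) * (x ^ 2 + β * x + γ) = 0 := by linear_combination h
  exact sub_eq_zero.mp ((mul_eq_zero.mp h1).resolve_right (hq x))

lemma root_hom {e β γ u D : F} (hq : ∀ x : F, x ^ 2 + β * x + γ ≠ 0) (hD : D ≠ 0)
    (h : u ^ 3 + (β - e) * u ^ 2 * D + (γ - e * β) * u * D ^ 2 + -(e * γ) * D ^ 3 = 0) :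
    u = e * D := by
  have h1 : u / D = e := by
    apply root_eq hq
    field_simp
    linear_combination h
  rw [← h1]
  field_simp

/-- The norm of `X - e` in the quadratic extension. -/
lemma norm_ne {e β γ : F} (hq : e ^ 2 + β * e + γ ≠ 0) :
    Algebra.norm F (AdjoinRoot.mk (X ^ 2 + C β * X + C γ) (X - C e)) ≠ 0 := by
  obtain ⟨q, hqd⟩ : ∃ q : F[X], q = X ^ 2 + C β * X + C γ := ⟨_, rfl⟩
  rw [← hqd]
  intro h
  have h1 : AdjoinRoot.mk q (X - C e) *
      AdjoinRoot.mk q (-(X + C β + C e) * C (e ^ 2 + β * e + γ)⁻¹) = 1 := by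
    rw [← map_mul, ← map_one (AdjoinRoot.mk q), ← sub_eq_zero, ← map_sub, AdjoinRoot.mk_eq_zero]
    refine ⟨-C (e ^ 2 + β * e + γ)⁻¹, ?_⟩
    have h2 : C (e ^ 2 + β * e + γ) * C (e ^ 2 + β * e + γ)⁻¹ = (1 : F[X]) := by
      rw [← C_mul, mul_inv_cancel₀ hq, C_1]
    simp only [C_add, C_mul, C_pow] at h2
    rw [hqd]
    linear_combination h2
  have h3 := congrArg (Algebra.norm F) h1
  rw [map_mul, map_one, h, zero_mul] at h3
  exact zero_ne_one h3

/-- The reduction of a singular class. -/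
lemma red (e β γ D : F) :
    C (D ^ 2) * X ^ 2 + C (e * D * D + (β - e) * D ^ 2) * X +
      C ((e * D) ^ 2 + (β - e) * (e * D) * D + (γ - e * β) * D ^ 2) =
      C (D ^ 2) * (X ^ 2 + C β * X + C γ : F[X]) := by
  have h1 : e * D * D + (β - e) * D ^ 2 = D ^ 2 * β := by ring
  have h2 : (e * D) ^ 2 + (β - e) * (e * D) * D + (γ - e * β) * D ^ 2 = D ^ 2 * γ := by ring
  rw [h1, h2]
  simp only [C_mul]
  ring

/-- The lattice of the product of a unit class and of a singular class, in terms of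
polynomials. -/
lemma lat (hPL : PLStmt) (hQF : QFStmt) {f : F[X] × F[X] × F[X]} {c : F}
    (hirr : Irreducible (cubK f)) {e β γ : F} (hq : ∀ x : F, x ^ 2 + β * x + γ ≠ 0)
    (hT : evc c f = (β - e, γ - e * β, -(e * γ))) {h h' s : (RatFunc F)[X]} {p : F[X][X]}
    (hs : cubK f ∣ h * s ^ 2 - lf p) (hU : UnP (pc c) f p) (hS : Sing c f h') :
    ∃ (g : Matrix (Fin 3) (Fin 3) (RatFunc F)) (A b0 b1 m0 m1 m2 : F[X]) (δ ρ : F),
      g.det ≠ 0 ∧ δ ≠ 0 ∧ ρ ≠ 0 ∧
      gᵀ * g0 f (h * h') * g = !![rf A, rf (pc c) * rf b0, rf (pc c) * rf b1;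
        rf (pc c) * rf b0, rf (pc c) * rf m0, rf (pc c) * rf m1;
        rf (pc c) * rf b1, rf (pc c) * rf m1, rf (pc c) * rf m2] ∧
      A.eval c = δ * (rd c p).eval e ∧
      m1.eval c ^ 2 - m0.eval c * m2.eval c =
        ρ ^ 2 * Algebra.norm F (AdjoinRoot.mk (X ^ 2 + C β * X + C γ) (rd c p)) := by
  obtain ⟨s', u, D, v, i, hs', hD, hv, hΦ⟩ := hS
  have ht : ∀ q : F[X], tau (evc c f).1 (evc c f).2.1 (evc c f).2.2 q =
      tau (β - e) (γ - e * β) (-(e * γ)) q := fun q => by rw [hT]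
  have hD' : D.eval c ≠ 0 := fun h0 => hD ((dvd_iff c D).mpr h0)
  have hv' : v.eval c ≠ 0 := fun h0 => hv ((dvd_iff c v).mpr h0)
  have ht1 : f.1.eval c = β - e := congrArg Prod.fst hT
  have ht2 : f.2.1.eval c = γ - e * β := congrArg (fun t => t.2.1) hT
  have ht3 : f.2.2.eval c = -(e * γ) := congrArg (fun t => t.2.2) hT
  have hΦc := congrArg (eval c) hΦ
  simp only [eval_add, eval_mul, eval_pow, eval_sub, eval_X, eval_C, sub_self, ht1, ht2, ht3,
    zero_pow (Nat.succ_ne_zero (2 * i)), zero_mul] at hΦc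
  have hu : u.eval c = e * D.eval c := root_hom hq hD' hΦc
  have hg : ¬ pc c ∣ 3 * u ^ 2 + 2 * f.1 * u * D + f.2.1 * D ^ 2 := by
    rw [dvd_iff]
    simp only [eval_add, eval_mul, eval_pow, eval_ofNat, ht1, ht2, hu]
    have h1 : 3 * (e * D.eval c) ^ 2 + 2 * (β - e) * (e * D.eval c) * D.eval c +
        (γ - e * β) * D.eval c ^ 2 = D.eval c ^ 2 * (e ^ 2 + β * e + γ) := by ring
    rw [h1]
    exact mul_ne_zero (pow_ne_zero 2 hD') (hq e)
  obtain ⟨g, hdet, h00, h0j, hjk⟩ := hPL F f c h h' s s' p u D v i hirr hs hU hs' hD hv hg hΦ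
  obtain ⟨w, hw⟩ : ∃ w : F, w = Algebra.norm F (AdjoinRoot.mk (X ^ 2 + C β * X + C γ)
    (X - C e)) := ⟨_, rfl⟩
  have hw0 : w ≠ 0 := hw ▸ norm_ne (hq e)
  have hsym : (gᵀ * g0 f (h * h') * g)ᵀ = gᵀ * g0 f (h * h') * g := by
    have h1 : (g0 f (h * h'))ᵀ = g0 f (h * h') := by
      ext i j
      change tau _ _ _ (X ^ (j : ℕ) * X ^ (i : ℕ) * (h * h')) =
        tau _ _ _ (X ^ (i : ℕ) * X ^ (j : ℕ) * (h * h'))
      rw [mul_comm (X ^ (j : ℕ))]
    rw [transpose_mul, transpose_mul, transpose_transpose, h1, Matrix.mul_assoc]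
  refine ⟨g, v ^ 2 * T f (p * (C (D ^ 2) * X ^ 2 + C (u * D + f.1 * D ^ 2) * X +
      C (u ^ 2 + f.1 * u * D + f.2.1 * D ^ 2))),
    pc c ^ i * v ^ 2 * T f (p * (C u - C D * X) * X ^ 0),
    pc c ^ i * v ^ 2 * T f (p * (C u - C D * X) * X ^ 1),
    T f (p * (C u - C D * X) ^ 3 * X ^ 0), T f (p * (C u - C D * X) ^ 3 * X ^ 1),
    T f (p * (C u - C D * X) ^ 3 * X ^ 2), v.eval c ^ 2 * D.eval c ^ 2, D.eval c ^ 3 * w,
    hdet, mul_ne_zero (pow_ne_zero 2 hv') (pow_ne_zero 2 hD'),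
    mul_ne_zero (pow_ne_zero 3 hD') hw0, ?_, ?_, ?_⟩
  · obtain ⟨M, hM⟩ : ∃ M, M = gᵀ * g0 f (h * h') * g := ⟨_, rfl⟩
    rw [← hM] at hsym h00 h0j hjk ⊢
    have k01 := h0j 0
    have k02 := h0j 1
    have k11 := hjk 0 0
    have k12 := hjk 0 1
    have k22 := hjk 1 1
    have k10 : M 1 0 = M 0 1 := congrFun (congrFun hsym 0) 1
    have k20 : M 2 0 = M 0 2 := congrFun (congrFun hsym 0) 2
    have k21 : M 2 1 = M 1 2 := congrFun (congrFun hsym 1) 2
    rw [tau_lf] at h00 k01 k02 k11 k12 k22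
    simp only [Fin.succ_zero_eq_one, Fin.succ_one_eq_two, Fin.isValue, Fin.val_zero,
      Fin.val_one, Nat.add_zero, Nat.zero_add, Nat.reduceAdd] at k01 k02 k11 k12 k22
    ext a b
    fin_cases a <;> fin_cases b <;>
      simp [h00, k01, k02, k11, k12, k22, k10, k20, k21, pow_succ] <;> ring
  · rw [eval_mul, eval_pow, T_eval, ht]
    have h1 : rd c (p * (C (D ^ 2) * X ^ 2 + C (u * D + f.1 * D ^ 2) * X +
        C (u ^ 2 + f.1 * u * D + f.2.1 * D ^ 2))) =
        C (D.eval c ^ 2) * (rd c p * (X ^ 2 + C β * X + C γ)) := by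
      simp only [rd, Polynomial.map_mul, Polynomial.map_add, Polynomial.map_pow, map_C, map_X,
        coe_evalRingHom, eval_add, eval_mul, eval_pow, ht1, ht2, hu]
      rw [red e β γ (D.eval c)]
      ring
    rw [h1, tau_C_mul, (hQF F e β γ (rd c p)).2.2]
    ring
  · have hβ : Polynomial.map (evalRingHom c) (C u - C D * X) =
        -(C (D.eval c) * (X - C e)) := by
      simp only [Polynomial.map_mul, Polynomial.map_sub, map_C, map_X,
        coe_evalRingHom, hu, C_mul]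
      ring
    have hm : ∀ n : ℕ, (T f (p * (C u - C D * X) ^ 3 * X ^ n)).eval c =
        -(D.eval c ^ 3) * tau (β - e) (γ - e * β) (-(e * γ))
          (rd c p * (X - C e) ^ 2 * (X - C e) * X ^ n) := by
      intro n
      rw [T_eval, ht, ← tau_C_mul]
      congr 1
      rw [rd, Polynomial.map_mul, Polynomial.map_mul, Polynomial.map_pow, hβ,
        Polynomial.map_pow, map_X]
      simp only [C_neg, C_pow]
      ring
    have hQ := (hQF F e β γ (rd c p * (X - C e) ^ 2)).1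
    have hn : Algebra.norm F (AdjoinRoot.mk (X ^ 2 + C β * X + C γ) (rd c p * (X - C e) ^ 2)) =
        Algebra.norm F (AdjoinRoot.mk (X ^ 2 + C β * X + C γ) (rd c p)) * w ^ 2 := by
      rw [map_mul, map_mul, map_pow, map_pow, hw]
    rw [hn] at hQ
    rw [hm, hm, hm, pow_zero, pow_one]
    linear_combination (-(D.eval c ^ 6)) * hQ

end Pool.RZ.Sg
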